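import Mathlib

/-!
# V1: a valuation, trivial on `K`, with independent values on algebraically independent elements
-/

namespace Pool.Agent.Helper41.VT

open MvPolynomial

section
variable {K F : Type} [Field K] [Field F] [Algebra K F] {r : ℕ}

/-- Laurent monomials in algebraically independent elements are linearly independent. -/
theorem laurent_linInd (P : Fin r → F) (hP : AlgebraicIndependent K P)
    (s : Finset (Fin r → ℤ)) (g : (Fin r → ℤ) → K)
    (hg : ∑ n ∈ s, algebraMap K F (g n) * ∏ i, P i ^ n i = 0) :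
    ∀ n ∈ s, g n = 0 := by
  classical
  have hne : ∀ i, P i ≠ 0 := fun i => hP.ne_zero i
  set N : ℕ := s.sup (fun n => Finset.univ.sup fun i => (n i).natAbs) with hN
  have hbd : ∀ n ∈ s, ∀ i, 0 ≤ n i + N := by
    intro n hn i
    have h1 : (n i).natAbs ≤ N :=
      (Finset.le_sup (f := fun i => (n i).natAbs) (Finset.mem_univ i)).trans
        (Finset.le_sup (f := fun n : Fin r → ℤ => Finset.univ.sup fun i => (n i).natAbs) hn)
    omega
  let τ : (Fin r → ℤ) → (Fin r →₀ ℕ) := fun n =>
    Finsupp.equivFunOnFinite.symm (fun i => (n i + N).toNat)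
  have hτ : ∀ n i, τ n i = (n i + N).toNat := fun n i => rfl
  have hinj : ∀ n ∈ s, ∀ m ∈ s, τ n = τ m → n = m := by
    intro n hn m hm h
    funext i
    have h1 := DFunLike.congr_fun h i
    rw [hτ, hτ] at h1
    have := hbd n hn i
    have := hbd m hm i
    omega
  have hterm : ∀ n ∈ s, (∏ i, P i ^ n i) * ∏ i, P i ^ N = ∏ i, P i ^ (τ n i) := by
    intro n hn
    rw [← Finset.prod_mul_distrib]
    refine Finset.prod_congr rfl fun i _ => ?_
    rw [hτ, ← zpow_natCast (P i) N, ← zpow_add₀ (hne i), ← zpow_natCast, Int.toNat_of_nonneg (hbd n hn i)]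
  have h0 : aeval P (∑ n ∈ s, monomial (τ n) (g n)) = 0 := by
    rw [map_sum]
    have : ∀ n ∈ s, aeval P (monomial (τ n) (g n)) =
        (algebraMap K F (g n) * ∏ i, P i ^ n i) * ∏ i, P i ^ N := by
      intro n hn
      rw [aeval_monomial, mul_assoc, hterm n hn]
      congr 1
      rw [Finsupp.prod_fintype _ _ (by simp)]
    rw [Finset.sum_congr rfl this, ← Finset.sum_mul, hg, zero_mul]
  have h1 : (∑ n ∈ s, monomial (τ n) (g n) : MvPolynomial (Fin r) K) = 0 :=
    (injective_iff_map_eq_zero _).mp hP _ h0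
  intro n hn
  have h2 := congrArg (coeff (τ n)) h1
  rw [coeff_sum, coeff_zero, Finset.sum_eq_single n] at h2
  · simpa using h2
  · intro m hm hmn
    rw [coeff_monomial, if_neg]
    exact fun h => hmn (hinj m hm n hn h)
  · intro h; exact absurd hn h

/-- The cone of lexicographically nonnegative exponent vectors. -/
abbrev Cone (r : ℕ) : Type := {n : Lex (Fin r → ℤ) // 0 ≤ n}

/-- Laurent monomials as a monoid homomorphism. -/
noncomputable def monHom (P : Fin r → F) (hne : ∀ i, P i ≠ 0) : Multiplicative (Cone r) →* F where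
  toFun n := ∏ i, P i ^ (ofLex (Multiplicative.toAdd n).1 i)
  map_one' := Finset.prod_eq_one fun i _ => zpow_zero _
  map_mul' a b := by
    rw [← Finset.prod_mul_distrib]
    refine Finset.prod_congr rfl fun i _ => ?_
    rw [← zpow_add₀ (hne i)]
    rfl

/-- The augmentation. -/
noncomputable def epsHom : Multiplicative (Cone r) →* K := by
  classical
  exact
  { toFun := fun n => if (Multiplicative.toAdd n).1 = 0 then 1 else 0
    map_one' := by simp
    map_mul' := by
      intro a b
      have ha := (Multiplicative.toAdd a).2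
      have hb := (Multiplicative.toAdd b).2
      have : (Multiplicative.toAdd (a * b)).1 = (Multiplicative.toAdd a).1 + (Multiplicative.toAdd b).1 := rfl
      rw [this]
      simp only [add_eq_zero_iff_of_nonneg ha hb]
      by_cases h1 : (Multiplicative.toAdd a).1 = 0 <;> by_cases h2 : (Multiplicative.toAdd b).1 = 0 <;>
        simp [h1, h2] }

theorem exists_valuationSubring (P : Fin r → F) (hP : AlgebraicIndependent K P) :
    ∃ V : ValuationSubring F, (∀ c : K, algebraMap K F c ∈ V) ∧
      ∀ n : Lex (Fin r → ℤ), 0 < n → (∏ i, P i ^ (ofLex n i)) ∈ V.nonunits := by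
  classical
  have hne : ∀ i, P i ≠ 0 := fun i => hP.ne_zero i
  let φ : AddMonoidAlgebra K (Cone r) →ₐ[K] F := AddMonoidAlgebra.lift K F (Cone r) (monHom P hne)
  let ε : AddMonoidAlgebra K (Cone r) →ₐ[K] K := AddMonoidAlgebra.lift K K (Cone r) epsHom
  have hφ : Function.Injective φ := by
    rw [injective_iff_map_eq_zero]
    intro x hx
    have hx' : x.coeff.sum (fun a b => algebraMap K F b * monHom P hne (Multiplicative.ofAdd a)) = 0 := hx
    set g : (Fin r → ℤ) → K := fun n => if h : 0 ≤ (toLex n : Lex (Fin r → ℤ)) then x.coeff ⟨toLex n, h⟩ else 0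
      with hg
    have hga : ∀ a : Cone r, g (ofLex a.1) = x.coeff a := by
      intro a
      rw [hg]
      exact dif_pos a.2
    have hinj : Function.Injective (fun a : Cone r => (ofLex a.1 : Fin r → ℤ)) := by
      intro a b h
      exact Subtype.ext h
    have key := laurent_linInd P hP (x.coeff.support.image (fun a => ofLex a.1)) g (by
      rw [Finset.sum_image (fun a _ b _ h => hinj h)]
      rw [← hx', Finsupp.sum]
      refine Finset.sum_congr rfl fun a _ => ?_
      rw [hga]
      rfl)
    have h0 : x.coeff = 0 := by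
      ext a
      by_contra hne'
      exact hne' (by
        have := key (ofLex a.1) (Finset.mem_image_of_mem _ (Finsupp.mem_support_iff.mpr hne'))
        rwa [hga] at this)
    exact AddMonoidAlgebra.coeff_injective h0
  let e : AddMonoidAlgebra K (Cone r) ≃+* (φ : AddMonoidAlgebra K (Cone r) →+* F).range :=
    RingEquiv.ofBijective (φ : AddMonoidAlgebra K (Cone r) →+* F).rangeRestrict
      ⟨fun a b h => hφ (congrArg Subtype.val h), RingHom.rangeRestrict_surjective _⟩
  let I : Ideal (φ : AddMonoidAlgebra K (Cone r) →+* F).range :=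
    RingHom.ker ((ε : AddMonoidAlgebra K (Cone r) →+* K).comp (e.symm : _ →+* _))
  have hI : I ≠ ⊤ := RingHom.ker_ne_top _
  obtain ⟨V, hV, hV'⟩ := Ideal.image_subset_nonunits_valuationSubring I hI
  refine ⟨V, fun c => ?_, fun n hn => ?_⟩
  · apply hV
    exact ⟨algebraMap K _ c, φ.commutes c⟩
  · apply hV'
    have hmem : (∏ i, P i ^ (ofLex n i)) = φ (AddMonoidAlgebra.single ⟨n, hn.le⟩ 1) := by
      simp only [φ, AddMonoidAlgebra.lift_single, one_smul]
      rfl
    refine ⟨e (AddMonoidAlgebra.single ⟨n, hn.le⟩ 1), ?_, hmem.symm⟩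
    change (ε : AddMonoidAlgebra K (Cone r) →+* K) (e.symm (e _)) = 0
    rw [RingEquiv.symm_apply_apply]
    change ε (AddMonoidAlgebra.single _ 1) = 0
    simp only [ε, AddMonoidAlgebra.lift_single, one_smul]
    change (if n = 0 then (1 : K) else 0) = 0
    rw [if_neg hn.ne']

/-- **V1.** -/
theorem exists_valuation (K F : Type) [Field K] [Field F] [Algebra K F] {r : ℕ} (P : Fin r → F)
    (hP : AlgebraicIndependent K P) :
    ∃ (Γ₀ : Type) (_ : LinearOrderedCommGroupWithZero Γ₀) (v : Valuation F Γ₀),
      (∀ c : K, c ≠ 0 → v (algebraMap K F c) = 1) ∧ ∀ n : Fin r → ℤ, ∏ i, v (P i) ^ n i = 1 → n = 0 := by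
  obtain ⟨V, hK, hV⟩ := exists_valuationSubring P hP
  refine ⟨V.ValueGroup, inferInstance, V.valuation, fun c hc => ?_, fun n hn => ?_⟩
  · have h1 : V.valuation (algebraMap K F c) ≤ 1 := (V.valuation_le_one_iff _).mpr (hK c)
    have h2 : V.valuation (algebraMap K F c⁻¹) ≤ 1 := (V.valuation_le_one_iff _).mpr (hK c⁻¹)
    rw [map_inv₀, map_inv₀] at h2
    have h0 : V.valuation (algebraMap K F c) ≠ 0 := by
      rw [Valuation.ne_zero_iff]
      exact (map_ne_zero _).mpr hc
    refine le_antisymm h1 ?_
    rw [← inv_le_one₀ (zero_lt_iff.mpr h0)]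
    exact h2
  · have hprod : ∀ n : Fin r → ℤ, V.valuation (∏ i, P i ^ n i) = ∏ i, V.valuation (P i) ^ n i := by
      intro n
      rw [map_prod]
      exact Finset.prod_congr rfl fun i _ => map_zpow₀ _ _ _
    by_contra hne
    rcases lt_trichotomy (toLex n : Lex (Fin r → ℤ)) 0 with h | h | h
    · have h' : 0 < (toLex (-n) : Lex (Fin r → ℤ)) := by
        have : (toLex (-n) : Lex (Fin r → ℤ)) = - toLex n := rfl
        rw [this]
        exact neg_pos.mpr h
      have h1 := (V.mem_nonunits_iff).mp (hV _ h')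
      change V.valuation (∏ i, P i ^ (-n) i) < 1 at h1
      rw [hprod] at h1
      have h2 : ∏ i, V.valuation (P i) ^ (-n) i = (∏ i, V.valuation (P i) ^ n i)⁻¹ := by
        rw [← Finset.prod_inv_distrib]
        exact Finset.prod_congr rfl fun i _ => by rw [Pi.neg_apply, zpow_neg]
      rw [h2, hn, inv_one] at h1
      exact lt_irrefl _ h1
    · exact hne h
    · have h1 := (V.mem_nonunits_iff).mp (hV _ h)
      change V.valuation (∏ i, P i ^ n i) < 1 at h1
      rw [hprod, hn] at h1
      exact lt_irrefl _ h1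

end

end Pool.Agent.Helper41.VT
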